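import Pool.Agent.Lib.MP_0abd54_ag.Lines
import Pool.Agent.Lib.MP_0abd54_ag.Main

/-!
# MP_0abd54_ag: the two rational lines agree up to sign (linear algebra of Weil classes)

`F` is a number field which is Galois over `ℚ` (in the application an imaginary quadratic field, or
a CM field with one prime above `p`), `F w` the line of Weil classes of a CM abelian variety `A`
whose CM field is abelian over `ℚ`, `F x` the line of Lefschetz classes of the reduction `A_0` which
lie in `M_l = ℚ_l F w`, `B_l` the intersection form (with a power of a polarisation), and `φ_g` the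
pull backs by the semilinear isogenies of `A_0` composed with Frobenius. The structures `Lines` and
`SemilinearMaps` are in `Pool/Agent/Lib/MP_0abd54_ag/Lines.lean`.
-/

set_option autoImplicit false

namespace Pool.Agent.Results.MP_0abd54_ag.UpToSign

open Pool.Agent.Lib.MP_0abd54_ag

/-- A family of pairs of lines, one over `ℚ_l` for every prime `l ≠ p`, with the same rational
numbers `bW`, `bX`. -/
abbrev Family (p : ℕ) (F : Type) [Field F] (bW bX : F → F → ℚ) : Type 1 :=
  ∀ l : PrimeNe p, Lines F bW bX ℚ_[l.1]

/-- `x_l = t w_l` or `x_l = - t w_l` for every `l`. -/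
def EqualUpToSign {p : ℕ} {F : Type} [Field F] {bW bX : F → F → ℚ} (R : Family p F bW bX)
    (t : F) : Prop :=
  ∀ l : PrimeNe p, (R l).x = t • (R l).w ∨ (R l).x = -(t • (R l).w)

/-- `B_l (a x_l) (b w_l) = ε_l bW (a t) b` for every `l`, where `ε_l` is a sign which does not depend
on `a` and `b`: the numbers are rational, and independent of `l` up to one sign. -/
def PairingUpToSign {p : ℕ} {F : Type} [Field F] {bW bX : F → F → ℚ} (R : Family p F bW bX)
    (t : F) : Prop :=
  ∃ ε : PrimeNe p → ℤ, (∀ l, ε l = 1 ∨ ε l = -1) ∧ ∀ (l : PrimeNe p) (a b : F),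
    (R l).form.B (a • (R l).x) (b • (R l).w) = ((ε l * bW (a * t) b : ℚ) : ℚ_[l.1])

/-- Let `F` be Galois over `ℚ` and let a family of pairs of lines be given, with `bX` not zero, and
semilinear maps with `α`, `β` independent of `l`. Then the two rational lines agree up to sign:
there is `t` in `F` with `bW (a t) (b t) = bX a b` and `x_l = t w_l` or `x_l = - t w_l` for each
`l`. -/
def RationalUpToSign : Prop :=
  ∀ (p : ℕ) (F : Type) [Field F] [NumberField F] [IsGalois ℚ F] (bW bX : F → F → ℚ),
    (∃ a b, bX a b ≠ 0) → ∀ (α β : (F ≃ₐ[ℚ] F) → F) (R : Family p F bW bX),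
      (∀ l, Nonempty (SemilinearMaps α β (R l))) →
      ∃ t : F, (∀ a b, bW (a * t) (b * t) = bX a b) ∧ EqualUpToSign R t ∧ PairingUpToSign R t

/-- No semilinear maps, one field `L` of characteristic zero instead of the `ℚ_l`. Let `F = ℚ(δ)` be
quadratic, `δ² = -D`, and `δ` antisymmetric for the form. Then
`D B(a x, b w)² + B(a x, δ b w)² = D bX(a, a) bW(b, b)`. -/
def NormIdentity : Prop :=
  ∀ (F : Type) [Field F] [NumberField F], Module.finrank ℚ F = 2 →
    ∀ (δ : F) (D : ℚ), δ * δ = -(D : F) → (∀ q : ℚ, δ ≠ q) →
    ∀ (bW bX : F → F → ℚ) (L : Type) [Field L] [CharZero L] (R : Lines F bW bX L),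
      (∀ m n, R.form.B (δ • m) n = -R.form.B m (δ • n)) → ∀ a b : F,
        (D : L) * R.form.B (a • R.x) (b • R.w) ^ 2 + R.form.B (a • R.x) ((δ * b) • R.w) ^ 2 =
          ((D * bX a a * bW b b : ℚ) : L)

/-- a pair of lines as a realisation -/
noncomputable def real {F : Type} [Field F] {bW bX : F → F → ℚ} {L : Type} [Field L]
    (R : Lines F bW bX L) : Realization F F F bW bX L :=
  { M := R.M
    comm := ⟨R.comm⟩
    j := LinearMap.toSpanSingleton F R.M R.w
    i := LinearMap.toSpanSingleton F R.M R.x
    B := LinearMap.mk₂ L R.form.B R.form.add_left R.form.smul_left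
      (fun m n n' => by rw [R.form.symm, R.form.add_left, R.form.symm n, R.form.symm n'])
      (fun r m n => by rw [R.form.symm, R.form.smul_left, R.form.symm n, smul_eq_mul])
    symm := fun m n => R.form.symm m n
    span_j := by
      rw [eq_top_iff]
      intro m _
      exact R.span_w m
    B_j := fun a b => R.B_w a b
    B_i := fun a b => R.B_x a b }

theorem result : RationalUpToSign ∧ NormIdentity := by
  refine ⟨?_, ?_⟩
  · intro p F _ _ _ bW bX hb α β R S
    obtain ⟨T, hT, h⟩ := upToSign p (F := F) (W := F) (X := F) (Module.finrank_self F)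
      (Module.finrank_self F) hb (φW := fun g a => g a * α g) (φX := fun g a => g a * β g)
      (fun l => real (R l)) (fun l => 
        { φ := fun g => { toFun := (S l).some.φ g, map_add' := (S l).some.add g, map_smul' := (S l).some.lin g }
          inj := (S l).some.inj
          semi := (S l).some.semi
          φ_j := fun g a => by
            change (S l).some.φ g (a • (R l).w) = (g a * α g) • (R l).w
            rw [(S l).some.semi, (S l).some.φ_w, smul_smul]
          φ_i := fun g a => by
            change (S l).some.φ g (a • (R l).x) = (g a * β g) • (R l).x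
            rw [(S l).some.semi, (S l).some.φ_x, smul_smul] })
    have hTa : ∀ a : F, T a = a * T 1 := fun a => by
      rw [← smul_eq_mul, ← map_smul, smul_eq_mul, mul_one]
    have hx : ∀ l : PrimeNe p, (R l).x = T 1 • (R l).w ∨ (R l).x = -(T 1 • (R l).w) := by
      intro l
      rcases h l with h | h
      · left
        have h1 : (1 : F) • (R l).x = T 1 • (R l).w := h 1
        rwa [one_smul] at h1
      · right
        have h1 : (1 : F) • (R l).x = -(T 1 • (R l).w) := h 1
        rwa [one_smul] at h1
    refine ⟨T 1, ?_, hx, ?_⟩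
    · intro a b
      rw [← hTa, ← hTa, hT]
    · have hε : ∀ l : PrimeNe p, ∃ e : ℤ, (e = 1 ∨ e = -1) ∧ ∀ a b : F,
          (R l).form.B (a • (R l).x) (b • (R l).w) = ((e * bW (a * T 1) b : ℚ) : ℚ_[l.1]) := by
        intro l
        rcases hx l with h | h
        · refine ⟨1, Or.inl rfl, fun a b => ?_⟩
          rw [h, smul_smul, (R l).B_w]
          simp
        · refine ⟨-1, Or.inr rfl, fun a b => ?_⟩
          have h1 : a • (R l).x = (-1 : ℚ_[l.1]) • ((a * T 1) • (R l).w) := by
            rw [h, smul_neg, smul_smul, neg_smul, one_smul]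
          rw [h1, (R l).form.smul_left, (R l).B_w]
          simp
      choose ε hε1 hε2 using hε
      exact ⟨ε, hε1, hε2⟩
  · intro F _ _ hF δ D hδ hδ' bW bX L _ _ R adj a b
    have h := normIdentity (W := F) (X := F) hF δ D hδ hδ' (Module.finrank_self F) (real R) adj a b
    exact h

end Pool.Agent.Results.MP_0abd54_ag.UpToSign
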